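import Pool.Agent.Lib_helper66.SapR.K4

/-! MP_f6626d_co, module K5: facts about pieces (helper66). -/

set_option autoImplicit false

namespace Pool.Agent.SapR.H66

open Finset Pool.Agent.Lib27

/-- L1 norm -/
def nrm (v : ℤ × ℤ) : ℤ := |v.1| + |v.2|

lemma nrm_add (u v : ℤ × ℤ) : nrm (u + v) ≤ nrm u + nrm v := by
  unfold nrm
  have h1 := abs_add_le u.1 v.1
  have h2 := abs_add_le u.2 v.2
  simp only [Prod.fst_add, Prod.snd_add]
  omega

lemma nrm_neg (v : ℤ × ℤ) : nrm (-v) = nrm v := by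
  unfold nrm; simp

lemma nrm_zero : nrm 0 = 0 := by simp [nrm]

lemma nrm_nonneg (v : ℤ × ℤ) : 0 ≤ nrm v := by
  unfold nrm; positivity

lemma nrm_dv (d : Fin 4) : nrm (dv d) = 1 := by
  fin_cases d <;> simp [dv, nrm]

lemma nrm_ep (s : List (Fin 4)) (p : ℤ × ℤ) : nrm (ep p s - p) ≤ s.length := by
  induction s generalizing p with
  | nil => simp [nrm]
  | cons d s ih =>
    rw [ep_cons]
    have h1 := ih (p + dv d)
    have h2 : ep (p + dv d) s - p = (ep (p + dv d) s - (p + dv d)) + dv d := by abel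
    have h3 := nrm_add (ep (p + dv d) s - (p + dv d)) (dv d)
    rw [h2]
    rw [nrm_dv] at h3
    simp only [List.length_cons]
    push_cast
    omega

lemma nrm_ep0 (s : List (Fin 4)) : nrm (ep 0 s) ≤ s.length := by
  have := nrm_ep s 0
  rwa [sub_zero] at this

/-- a vertex splits the word -/
lemma exists_split_vt (p : ℤ × ℤ) (s : List (Fin 4)) (v : ℤ × ℤ) (hv : v ∈ vt p s) :
    ∃ u t, s = u ++ t ∧ v = ep p u := by
  induction s generalizing p with
  | nil =>
    rw [vt_nil, List.mem_singleton] at hv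
    exact ⟨[], [], rfl, hv⟩
  | cons d s ih =>
    rw [vt_cons, List.mem_cons] at hv
    rcases hv with rfl | hv
    · exact ⟨[], d :: s, rfl, rfl⟩
    · obtain ⟨u, t, rfl, rfl⟩ := ih _ hv
      exact ⟨d :: u, t, rfl, rfl⟩

/-- distance of the ends through a common vertex -/
lemma nrm_vt (p : ℤ × ℤ) (s : List (Fin 4)) (v : ℤ × ℤ) (hv : v ∈ vt p s) :
    nrm (v - p) + nrm (ep p s - v) ≤ s.length := by
  obtain ⟨u, t, rfl, rfl⟩ := exists_split_vt p s v hv
  have h1 := nrm_ep u p
  have h2 := nrm_ep t (ep p u)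
  rw [ep_append, List.length_append]
  push_cast
  omega

lemma lev_add (u v : ℤ × ℤ) : lev (u + v) = lev u + lev v := by
  unfold lev; simp only [Prod.fst_add, Prod.snd_add]; ring

lemma lev_neg (v : ℤ × ℤ) : lev (-v) = - lev v := by
  unfold lev; simp only [Prod.fst_neg, Prod.snd_neg]; ring

lemma lev_zero : lev 0 = 0 := by simp [lev]

lemma lev_le_nrm (v : ℤ × ℤ) : |lev v| ≤ nrm v := by
  unfold lev nrm; exact abs_add_le _ _

lemma lev_dv (d : Fin 4) : lev (dv d) = 1 ∨ lev (dv d) = -1 := by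
  fin_cases d <;> simp [dv, lev]

lemma lev_ep_parity (p : ℤ × ℤ) (s : List (Fin 4)) :
    ∃ c : ℤ, lev (ep p s) = lev p + s.length + 2 * c := by
  induction s generalizing p with
  | nil => exact ⟨0, by simp⟩
  | cons d s ih =>
    obtain ⟨c, hc⟩ := ih (p + dv d)
    rw [ep_cons, hc, lev_add]
    rcases lev_dv d with h | h
    · exact ⟨c, by rw [h]; push_cast [List.length_cons]; ring⟩
    · exact ⟨c - 1, by rw [h]; push_cast [List.length_cons]; ring⟩

lemma mem_wordsUpTo (M : ℕ) (s : List (Fin 4)) : s ∈ wordsUpTo M ↔ s.length ≤ M := by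
  unfold wordsUpTo
  rw [mem_biUnion]
  constructor
  · rintro ⟨k, hk, hs⟩
    rw [mem_words] at hs
    rw [mem_range] at hk
    omega
  · intro h
    exact ⟨s.length, mem_range.2 (by omega), (mem_words _ _).2 rfl⟩

lemma mem_Pc (r : ℕ) (p : List (Fin 4) × List (Fin 4)) :
    p ∈ Pc r ↔ FreePiece p.1 p.2 ∧ p.1.length + p.2.length ≤ r + 2 := by
  classical
  unfold Pc
  rw [mem_filter, mem_product, mem_wordsUpTo, mem_wordsUpTo]
  constructor
  · rintro ⟨-, h⟩; exact h
  · intro h
    exact ⟨⟨by omega, by omega⟩, h⟩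

lemma mem_allowed (r : ℕ) (x : ℤ) (p : List (Fin 4) × List (Fin 4)) :
    p ∈ allowed r x ↔ p ∈ Pc r ∧ 1 ≤ x ∧ 1 ≤ x + jump p ∧ Disj x p := by
  classical
  unfold allowed
  rw [mem_filter]

lemma abs_jump_le (p : List (Fin 4) × List (Fin 4)) :
    |jump p| ≤ p.1.length + p.2.length := by
  have h1 := nrm_ep0 p.1
  have h2 := nrm_ep0 p.2
  unfold nrm at h1 h2
  unfold jump
  have h3 := abs_add_le (ep 0 p.1).1 (ep 0 p.2).1
  have h4 := abs_nonneg (ep 0 p.1).2
  have h5 := abs_nonneg (ep 0 p.2).2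
  omega

/-- the end of the descending strand -/
lemma ep_desc {U D : List (Fin 4)} (h2 : lev (ep 0 D) = - lev (ep 0 U)) (x : ℤ) :
    ep 0 U + (-(x + jump (U, D)), x + jump (U, D)) + ep 0 D = (-x, x) := by
  unfold lev at h2
  unfold jump
  simp only [Prod.ext_iff, Prod.fst_add, Prod.snd_add]
  constructor
  · ring
  · linear_combination h2

theorem k5far : K5far_Stmt := by
  intro r x hx
  ext p
  rw [mem_allowed]
  constructor
  · exact fun h => h.1
  · intro hp
    have hp' := (mem_Pc r p).1 hp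
    have hj := abs_jump_le p
    have hlen : ((p.1.length + p.2.length : ℕ) : ℤ) ≤ r + 2 := by exact_mod_cast hp'.2
    push_cast at hlen
    rw [abs_le] at hj
    refine ⟨hp, by omega, by omega, ?_⟩
    intro v hv1 hv2
    have h1 := nrm_vt _ _ v hv1
    have h2 := nrm_vt _ _ v hv2
    rw [ep_eq _ p.2, add_comm (ep 0 p.2)] at h2
    have h3 := ep_desc (U := p.1) (D := p.2) hp'.1.1.2.1 x
    rw [show (p.1, p.2) = p from rfl] at h3
    rw [h3] at h2
    have h4 : nrm ((-x, x) : ℤ × ℤ) ≤ nrm ((-x, x) - v) + nrm v := by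
      have := nrm_add ((-x, x) - v) v
      rwa [sub_add_cancel] at this
    have h5 : nrm ((-x, x) : ℤ × ℤ) = 2 * x := by
      unfold nrm
      simp only [abs_neg]
      rw [abs_of_nonneg (by omega : 0 ≤ x)]
      ring
    rw [sub_zero] at h1
    have h6 := nrm_nonneg (ep 0 p.1 - v)
    have h7 := nrm_nonneg (v - (ep 0 p.1 + (-(x + jump p), x + jump p)))
    omega

lemma cnt_map_neg (l : List (ℤ × ℤ)) (h : ℤ) : cnt (l.map (- ·)) h = cnt l (-h) := by
  unfold cnt
  rw [List.countP_map]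
  apply List.countP_congr
  intro p _
  simp only [Function.comp, decide_eq_true_eq]
  rw [lev_neg]
  constructor <;> intro h <;> omega

lemma stripPair_flip {U D : List (Fin 4)} (h : StripPair U D) : StripPair (rot2 D) (rot2 U) := by
  obtain ⟨h1, h2, h3, h4, h5, h6⟩ := h
  unfold StripPair
  rw [ep0_rot2, ep0_rot2, lev_neg, lev_neg, vt_rot2, vt_rot2, vs_rot2, vs_rot2, neg_zero]
  refine ⟨by omega, by omega, ?_, ?_, ?_, ?_⟩
  · exact (List.nodup_map_iff neg_injective).2 h4
  · exact (List.nodup_map_iff neg_injective).2 h3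
  · intro p hp
    rw [← List.map_tail, List.mem_map] at hp
    obtain ⟨q, hq, rfl⟩ := hp
    have := h6 q hq
    rw [lev_neg]
    omega
  · intro p hp
    rw [← List.map_tail, List.mem_map] at hp
    obtain ⟨q, hq, rfl⟩ := hp
    have := h5 q hq
    rw [lev_neg]
    omega

lemma irred_flip {U D : List (Fin 4)} (hS : StripPair U D) (h : Irred U D) :
    Irred (rot2 D) (rot2 U) := by
  intro k hk1 hk2
  rw [ep0_rot2, lev_neg] at hk2 ⊢
  rw [vt_rot2, vt_rot2, neg_zero, cnt_map_neg, cnt_map_neg]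
  have h2 := hS.2.1
  have := h (lev (ep 0 U) - k) (by omega) (by omega)
  rintro ⟨ha, hb⟩
  apply this
  have e1 : -(k - -lev (ep 0 D)) = lev (ep 0 U) - k := by omega
  have e2 : lev (ep 0 U) - k - lev (ep 0 U) = -k := by omega
  rw [e1] at hb
  rw [e2]
  exact ⟨hb, ha⟩

lemma flip_flip (p : List (Fin 4) × List (Fin 4)) : flip (flip p) = p := by
  unfold flip
  simp only [rot2_rot2]

lemma jump_flip (p : List (Fin 4) × List (Fin 4)) : jump (flip p) = - jump p := by
  unfold jump flip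
  simp only [ep0_rot2, Prod.fst_neg]
  ring

lemma disjoint_map_add (l₁ l₂ : List (ℤ × ℤ)) (c : ℤ × ℤ) :
    List.Disjoint (l₁.map (· + c)) (l₂.map (· + c)) ↔ List.Disjoint l₁ l₂ := by
  constructor
  · intro h v h1 h2
    exact h (List.mem_map_of_mem h1) (List.mem_map_of_mem h2)
  · intro h v h1 h2
    rw [List.mem_map] at h1 h2
    obtain ⟨a, ha, rfl⟩ := h1
    obtain ⟨b, hb, hab⟩ := h2
    have : b = a := add_right_cancel hab
    exact h ha (this ▸ hb)

lemma disjoint_map_neg (l₁ l₂ : List (ℤ × ℤ)) :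
    List.Disjoint (l₁.map (- ·)) (l₂.map (- ·)) ↔ List.Disjoint l₁ l₂ := by
  constructor
  · intro h v h1 h2
    exact h (List.mem_map_of_mem h1) (List.mem_map_of_mem h2)
  · intro h v h1 h2
    rw [List.mem_map] at h1 h2
    obtain ⟨a, ha, rfl⟩ := h1
    obtain ⟨b, hb, hab⟩ := h2
    have : b = a := neg_injective hab
    exact h ha (this ▸ hb)

lemma disj_flip {x : ℤ} {p : List (Fin 4) × List (Fin 4)} (hS : StripPair p.1 p.2)
    (h : Disj x p) : Disj (x + jump p) (flip p) := by
  unfold Disj at h ⊢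
  rw [jump_flip]
  have e0 : x + jump p + -jump p = x := by ring
  rw [e0]
  change List.Disjoint (vt 0 (rot2 p.2)) (vt (ep 0 (rot2 p.2) + (-x, x)) (rot2 p.1))
  rw [vt_rot2, vt_rot2, ep0_rot2, disjoint_map_neg, neg_zero]
  have h3 := ep_desc (U := p.1) (D := p.2) hS.2.1 x
  rw [show (p.1, p.2) = p from rfl] at h3
  set q : ℤ × ℤ := ep 0 p.1 + (-(x + jump p), x + jump p) with hq
  have e1 : vt q p.2 = (vt 0 p.2).map (· + q) := vt_eq q p.2
  have e2 : vt 0 p.1 = (vt (-(-ep 0 p.2 + (-x, x))) p.1).map (· + q) := by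
    rw [← vt_add]
    congr 1
    rw [← h3]
    abel
  rw [e1, e2, disjoint_map_add] at h
  exact h.symm

theorem k5flip : K5flip_Stmt := by
  intro r p hp
  have hp' := (mem_Pc r p).1 hp
  have hlen : (flip p).1.length + (flip p).2.length = p.1.length + p.2.length := by
    unfold flip; simp only [rot2_length]; omega
  have hmem : flip p ∈ Pc r := by
    rw [mem_Pc, hlen]
    exact ⟨⟨stripPair_flip hp'.1.1, irred_flip hp'.1.1 hp'.1.2⟩, hp'.2⟩
  refine ⟨hmem, flip_flip p, jump_flip p, ?_, ?_, hlen, ?_⟩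
  · unfold ht flip
    simp only [ep0_rot2, lev_neg]
    have := hp'.1.1.2.1
    omega
  · unfold off flip
    simp only [dbl0_rot2]
    ring
  · intro x
    rw [mem_allowed, mem_allowed, jump_flip]
    constructor
    · rintro ⟨-, h1, h2, h3⟩
      exact ⟨hmem, h2, by omega, disj_flip hp'.1.1 h3⟩
    · rintro ⟨-, h1, h2, h3⟩
      refine ⟨hp, by omega, h1, ?_⟩
      have h4 := disj_flip (stripPair_flip hp'.1.1) h3
      rw [jump_flip] at h4
      have e : x + jump p + -jump p = x := by ring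
      rw [e] at h4
      change Disj x (flip (flip p)) at h4
      rwa [flip_flip] at h4

lemma ht_le (U : List (Fin 4)) : lev (ep 0 U) ≤ U.length := by
  have h1 := lev_le_nrm (ep 0 U)
  have h2 := nrm_ep0 U
  have h3 := le_abs_self (lev (ep 0 U))
  omega

lemma ht_ge (U : List (Fin 4)) : - (U.length : ℤ) ≤ lev (ep 0 U) := by
  have h1 := lev_le_nrm (ep 0 U)
  have h2 := nrm_ep0 U
  have h3 := neg_abs_le (lev (ep 0 U))
  omega

lemma abs_dbl_le (s : List (Fin 4)) : |dbl 0 s| ≤ (s.length : ℤ) ^ 2 := by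
  have h : ∀ (s : List (Fin 4)) (p : ℤ × ℤ) (M : ℤ), 0 ≤ M → |p.1| ≤ M → |p.2| ≤ M →
      |dbl p s| ≤ s.length * (M + s.length) := by
    intro s
    induction s with
    | nil => intro p M _ _ _; simp
    | cons d s ih =>
      intro p M hM h1 h2
      rw [dbl_cons]
      have h3 := ih (p + dv d) (M + 1) (by omega) (by
        have := dv_bound d
        rw [Prod.fst_add, abs_le] at *
        omega) (by
        have := dv_bound d
        rw [Prod.snd_add, abs_le] at *
        omega)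
      have h4 : |p.1 * (dv d).2 - p.2 * (dv d).1| ≤ M := by
        fin_cases d <;> simp [dv, h1, h2]
      have h5 := abs_add_le (p.1 * (dv d).2 - p.2 * (dv d).1) (dbl (p + dv d) s)
      have h6 : (List.length (d :: s) : ℤ) = s.length + 1 := by simp
      rw [h6]
      have h7 : (0 : ℤ) ≤ s.length := by positivity
      nlinarith
  have := h s 0 0 le_rfl (by simp) (by simp)
  rw [zero_add] at this
  rw [pow_two]
  exact this

theorem k5size : K5size_Stmt := by
  intro r p hp
  obtain ⟨⟨⟨h1, h2, h3, h4, h5, h6⟩, hirr⟩, hlen⟩ := (mem_Pc r p).1 hp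
  have a1 := ht_le p.1
  have a2 := ht_ge p.2
  have hj := abs_jump_le p
  have d1 := abs_dbl_le p.1
  have d2 := abs_dbl_le p.2
  have hlen' : ((p.1.length : ℤ) + p.2.length) ≤ r + 2 := by exact_mod_cast hlen
  have hl1 : (0 : ℤ) ≤ p.1.length := by positivity
  have hl2 : (0 : ℤ) ≤ p.2.length := by positivity
  refine ⟨?_, by omega, hlen, ?_, ?_, by omega, ?_⟩
  · obtain ⟨c1, hc1⟩ := lev_ep_parity 0 p.1
    obtain ⟨c2, hc2⟩ := lev_ep_parity 0 p.2
    rw [lev_zero] at hc1 hc2
    rw [Nat.even_iff]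
    omega
  · unfold ht; omega
  · unfold ht; omega
  · unfold off
    have h7 := abs_add_le (dbl 0 p.1) (dbl 0 p.2)
    nlinarith

theorem k5basic : K5basic_Stmt := by
  intro r x hx
  refine ⟨?_, ?_, ?_, ?_⟩
  · rw [mem_allowed, mem_Pc]
    refine ⟨⟨⟨?_, ?_⟩, by simp⟩, hx, ?_, ?_⟩
    · unfold StripPair; simp [lev, dv, Prod.ext_iff]
    · intro k h1 h2
      simp [lev, dv] at h2
      omega
    · simp [jump, dv]; omega
    · intro v h1 h2
      simp [jump, dv, Prod.ext_iff] at h1 h2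
      omega
  · rw [mem_allowed, mem_Pc]
    refine ⟨⟨⟨?_, ?_⟩, by simp⟩, hx, ?_, ?_⟩
    · unfold StripPair; simp [lev, dv, Prod.ext_iff]
    · intro k h1 h2
      simp [lev, dv] at h2
      omega
    · simp [jump, dv]; omega
    · intro v h1 h2
      simp [jump, dv, Prod.ext_iff] at h1 h2
      omega
  · rw [mem_allowed, mem_Pc]
    refine ⟨⟨⟨?_, ?_⟩, by simp⟩, hx, ?_, ?_⟩
    · unfold StripPair; simp [lev, dv, Prod.ext_iff]
    · intro k h1 h2
      simp [lev, dv] at h2
      omega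
    · simp [jump, dv]; omega
    · intro v h1 h2
      simp [jump, dv, Prod.ext_iff] at h1 h2
      omega
  · intro hx2
    rw [mem_allowed, mem_Pc]
    refine ⟨⟨⟨?_, ?_⟩, by simp⟩, hx, ?_, ?_⟩
    · unfold StripPair; simp [lev, dv, Prod.ext_iff]
    · intro k h1 h2
      simp [lev, dv] at h2
      omega
    · simp [jump, dv]; omega
    · intro v h1 h2
      simp [jump, dv, Prod.ext_iff] at h1 h2
      omega

lemma arch_len {x : ℤ} {w : List (Fin 4)} (hx : 1 ≤ x) (h : Arch x w) :
    Even w.length ∧ 2 * x ≤ w.length := by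
  obtain ⟨c, hc⟩ := lev_ep_parity 0 w
  have h1 := nrm_ep0 w
  rw [h.2.1] at hc h1
  constructor
  · rw [Nat.even_iff]
    unfold lev at hc
    simp at hc
    omega
  · unfold nrm at h1
    simp only [abs_neg] at h1
    rw [abs_of_nonneg (by omega : 0 ≤ x)] at h1
    omega

theorem k5cap : K5cap_Stmt := by
  classical
  refine ⟨?_, ?_, ?_⟩
  · intro r x M T hx hT
    unfold CapSet at hT
    rw [mem_filter, mem_words] at hT
    obtain ⟨rfl, hA, -, hM⟩ := hT
    obtain ⟨h1, h2⟩ := arch_len hx hA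
    refine ⟨h1, h2, hM, ?_⟩
    have h3 := abs_dbl_le T
    have h4 : (T.length : ℤ) ≤ r + 1 := by exact_mod_cast hM
    have h5 : (0 : ℤ) ≤ T.length := by positivity
    nlinarith
  · intro r hr
    unfold CapSet
    rw [mem_filter, mem_words]
    refine ⟨rfl, ?_, ?_, by omega⟩
    · unfold Arch
      simp [dv, lev, Prod.ext_iff]
    · intro h hh hc
      have h2 := hc.1
      have h3 := hc.2.2
      unfold cnt at h2 h3
      simp [dv, lev, List.countP_cons] at h2 h3
      split_ifs at h2 h3 <;> omega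
  · intro r x N w hx hw
    unfold ArchSet at hw
    rw [mem_filter, mem_words] at hw
    obtain ⟨rfl, hA, -⟩ := hw
    exact arch_len hx hA

end Pool.Agent.SapR.H66
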