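import Pool.Agent.Lib_helper66.SapR.Rot

/-! MP_f6626d_co, module K6: the family with `r = 1` consists of the staircase polygons
(helper66). -/

set_option autoImplicit false

namespace Pool.Agent.SapR.H66

open Finset Pool.Agent.Lib27

/-- the root is the unique lowest vertex -/
def Bot (s : List (Fin 4)) : Prop := ∀ v ∈ vs 0 s, 0 ≤ lev v ∧ (lev v = 0 → v = 0)

lemma cnt_eq_zero {l : List (ℤ × ℤ)} {h : ℤ} (hl : ∀ v ∈ l, lev v ≠ h) : cnt l h = 0 := by
  unfold cnt
  rw [List.countP_eq_zero]
  intro v hv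
  simpa using hl v hv

lemma cntI_self (l : List (ℤ × ℤ)) (h : ℤ) : cntI l h h = cnt l h := by
  unfold cntI cnt
  apply List.countP_congr
  intro p _
  simp only [decide_eq_true_eq]
  constructor <;> intro h <;> omega

lemma cnt_le_two {l : List (ℤ × ℤ)} (hl : ShortRuns 1 l) (h : ℤ) : cnt l h ≤ 2 := by
  by_cases hc : Cut l h
  · exact hc.1.le
  · have := hl h h (fun k h1 h2 hk => hc (by
      have : k = h := by omega
      rwa [this] at hk))
    rw [cntI_self] at this
    omega

lemma cnt_le_one {l : List (ℤ × ℤ)} (hl : ShortRuns 1 l) (h : ℤ) (hc : ¬ Cut l h) :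
    cnt l h ≤ 1 := by
  have := hl h h (fun k h1 h2 hk => hc (by
      have : k = h := by omega
      rwa [this] at hk))
  rwa [cntI_self] at this

/-- total number of vertices by levels -/
lemma length_eq_sum_cnt (l : List (ℤ × ℤ)) (H : ℤ) (hl : ∀ v ∈ l, 0 ≤ lev v ∧ lev v ≤ H) :
    l.length = ∑ h ∈ Icc (0 : ℤ) H, cnt l h := by
  induction l with
  | nil => simp [cnt]
  | cons v l ih =>
    have h1 := ih fun w hw => hl w (List.mem_cons_of_mem _ hw)
    have h2 := hl v (List.mem_cons_self)
    have h3 : ∀ h : ℤ, cnt (v :: l) h = cnt l h + if lev v = h then 1 else 0 := by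
      intro h
      unfold cnt
      rw [List.countP_cons]
      simp
    rw [List.length_cons, h1, sum_congr rfl fun h _ => h3 h, sum_add_distrib, sum_ite_eq,
      if_pos (mem_Icc.2 h2)]

/-- maximal height of a closed word -/
lemma exists_max_lev (s : List (Fin 4)) :
    ∃ t ≤ s.length, ∀ v ∈ vs 0 s, lev v ≤ lev (ep 0 (s.take t)) := by
  obtain ⟨t, ht, hmax⟩ := exists_max_image (range (s.length + 1))
    (fun t => lev (ep 0 (s.take t))) ⟨0, by simp⟩
  refine ⟨t, by have := mem_range.1 ht; omega, ?_⟩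
  intro v hv
  obtain ⟨i, hi, rfl⟩ := List.getElem_of_mem hv
  rw [vs_getElem]
  exact hmax i (by rw [mem_range]; rw [vs_length] at hi; omega)

/-- all steps of a steepest path are East or North -/
lemma all_up (U : List (Fin 4)) (h : lev (ep 0 U) = U.length) : ∀ d ∈ U, d = 0 ∨ d = 1 := by
  induction U with
  | nil => simp
  | cons a U ih =>
    rw [ep_cons, zero_add, ep_eq, lev_add] at h
    have h1 := ht_le U
    have h2 : lev (dv a) ≤ 1 := by rcases lev_dv a with h | h <;> omega
    push_cast [List.length_cons] at h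
    have h3 : lev (dv a) = 1 := by omega
    have h4 : lev (ep 0 U) = U.length := by omega
    intro d hd
    rw [List.mem_cons] at hd
    rcases hd with rfl | hd
    · fin_cases d <;> simp [dv, lev] at h3 ⊢
    · exact ih h4 d hd

lemma all_down (U : List (Fin 4)) (h : lev (ep 0 U) = - (U.length : ℤ)) :
    ∀ d ∈ U, d = 2 ∨ d = 3 := by
  have h1 : lev (ep 0 (rot2 U)) = (rot2 U).length := by
    rw [ep0_rot2, lev_neg, h, rot2_length]; ring
  intro d hd
  have h2 := all_up _ h1 (d + 2) (by
    unfold rot2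
    exact List.mem_map_of_mem hd)
  revert h2
  fin_cases d <;> decide

/-- structure of the rooted words -/
lemma bot_split (n : ℕ) (hn : 1 ≤ n) (s : List (Fin 4)) (hs : s ∈ Fam 1 n) (hb : Bot s) :
    ∃ U D : List (Fin 4), s = U ++ D ∧ U.length = n ∧ D.length = n ∧
      (∀ d ∈ U, d = 0 ∨ d = 1) ∧ ∀ d ∈ D, d = 2 ∨ d = 3 := by
  rw [mem_Fam] at hs
  obtain ⟨⟨hl, hS⟩, hr⟩ := hs
  obtain ⟨t, ht, hmax⟩ := exists_max_lev s
  set H := lev (ep 0 (s.take t)) with hH
  have h0 : (0 : ℤ × ℤ) ∈ vs 0 s := by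
    have := vertex_mem s 0 (by omega)
    simpa using this
  have hsum := length_eq_sum_cnt (vs 0 s) H fun v hv => ⟨(hb v hv).1, hmax v hv⟩
  rw [vs_length, hl] at hsum
  -- the bottom level
  have c0 : cnt (vs 0 s) 0 ≤ 1 := by
    apply cnt_le_one hr
    intro hc
    have : cnt (vs 0 s) (0 - 1) = 0 := cnt_eq_zero fun v hv => by
      have := (hb v hv).1; omega
    have h2 := hc.2.1
    omega
  have cH : cnt (vs 0 s) H ≤ 1 := by
    apply cnt_le_one hr
    intro hc
    have : cnt (vs 0 s) (H + 1) = 0 := cnt_eq_zero fun v hv => by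
      have := hmax v hv; omega
    have h2 := hc.2.2
    omega
  have hH0 : 0 ≤ H := by
    have := hmax 0 h0
    rwa [lev_zero] at this
  have hlenle : (2 * n : ℤ) ≤ 2 * H := by
    rcases hH0.eq_or_lt with h | h
    · exfalso
      rw [← h, Icc_self, sum_singleton] at hsum
      omega
    · have h1 : ∑ h ∈ Icc (0 : ℤ) H, cnt (vs 0 s) h ≤
          cnt (vs 0 s) 0 + cnt (vs 0 s) H + 2 * (H - 1).toNat := by
        have e : Icc (0 : ℤ) H = insert 0 (insert H (Icc 1 (H - 1))) := by
          ext x
          simp only [mem_Icc, mem_insert]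
          omega
        rw [e, sum_insert, sum_insert]
        · have h2 : ∑ h ∈ Icc (1 : ℤ) (H - 1), cnt (vs 0 s) h ≤
              ∑ h ∈ Icc (1 : ℤ) (H - 1), 2 := sum_le_sum fun h _ => cnt_le_two hr h
          rw [sum_const, Int.card_Icc, smul_eq_mul] at h2
          have h3 : (H - 1 + 1 - 1).toNat = (H - 1).toNat := by congr 1; ring
          rw [h3] at h2
          omega
        · simp
        · simp only [mem_insert, mem_Icc]
          omega
      omega
  have hlen1 := ht_le (s.take t)
  rw [← hH, List.length_take, min_eq_left ht] at hlen1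
  have hclosed : lev (ep 0 (s.drop t)) = - H := by
    have h1 : ep 0 (s.take t ++ s.drop t) = 0 := by
      rw [List.take_append_drop]; exact hS.1
    rw [ep_of_closed h1, lev_neg]
  have hlen2 := ht_ge (s.drop t)
  rw [hclosed, List.length_drop] at hlen2
  have hsub : ((s.length - t : ℕ) : ℤ) = s.length - t := by
    rw [Nat.cast_sub ht]
  rw [hsub] at hlen2
  have ht' : (t : ℤ) = n := by omega
  have ht'' : t = n := by exact_mod_cast ht'
  refine ⟨s.take t, s.drop t, (List.take_append_drop t s).symm, ?_, ?_, ?_, ?_⟩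
  · rw [List.length_take, min_eq_left ht, ht'']
  · rw [List.length_drop]; omega
  · apply all_up
    rw [← hH, List.length_take, min_eq_left ht]
    omega
  · apply all_down
    rw [hclosed, List.length_drop, hsub]
    omega

lemma eq_of_cnt_le_one {l : List (ℤ × ℤ)} {h : ℤ} (hc : cnt l h ≤ 1) {v w : ℤ × ℤ} (hv : v ∈ l)
    (hw : w ∈ l) (hv' : lev v = h) (hw' : lev w = h) : v = w := by
  unfold cnt at hc
  rw [List.countP_eq_length_filter] at hc
  have h1 : v ∈ l.filter (fun p => decide (lev p = h)) := by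
    rw [List.mem_filter]; exact ⟨hv, by simpa using hv'⟩
  have h2 : w ∈ l.filter (fun p => decide (lev p = h)) := by
    rw [List.mem_filter]; exact ⟨hw, by simpa using hw'⟩
  generalize l.filter (fun p => decide (lev p = h)) = m at hc h1 h2
  match m with
  | [] => simp at h1
  | [a] =>
    rw [List.mem_singleton] at h1 h2
    rw [h1, h2]
  | a :: b :: m => simp at hc

lemma bot_rotate (s : List (Fin 4)) (hs : ep 0 s = 0) (j : ℕ) (hj : j ≤ s.length) :
    Bot (s.rotate j) ↔ ∀ v ∈ vs 0 s, lev (ep 0 (s.take j)) ≤ lev v ∧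
      (lev v = lev (ep 0 (s.take j)) → v = ep 0 (s.take j)) := by
  obtain ⟨e1, e2⟩ := rotate_split s j hj
  have hs' : ep 0 (s.take j ++ s.drop j) = 0 := by rw [← e1]; exact hs
  have hperm := vs_rot_perm hs'
  rw [← e1, ← e2] at hperm
  unfold Bot
  set q := ep 0 (s.take j) with hq
  constructor
  · intro h v hv
    have h1 := h (v + -q) (by
      rw [hperm.mem_iff, List.mem_map]
      exact ⟨v, hv, rfl⟩)
    rw [lev_add, lev_neg] at h1
    refine ⟨by omega, fun h2 => ?_⟩
    have := h1.2 (by omega)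
    exact eq_of_sub_eq_zero (by rw [sub_eq_add_neg]; exact this)
  · intro h v hv
    rw [hperm.mem_iff, List.mem_map] at hv
    obtain ⟨w, hw, rfl⟩ := hv
    have h1 := h w hw
    rw [lev_add, lev_neg]
    refine ⟨by omega, fun h2 => ?_⟩
    rw [h1.2 (by omega)]
    exact add_neg_cancel q

lemma exists_unique_bot (n : ℕ) (hn : 1 ≤ n) (s : List (Fin 4)) (hs : s ∈ Fam 1 n) :
    ∃! j, j < 2 * n ∧ Bot (s.rotate j) := by
  rw [mem_Fam] at hs
  obtain ⟨⟨hl, hS⟩, hr⟩ := hs
  obtain ⟨j, hj, hmin⟩ := exists_min_image (range (2 * n))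
    (fun t => lev (ep 0 (s.take t))) ⟨0, by rw [mem_range]; omega⟩
  rw [mem_range] at hj
  have hmin' : ∀ v ∈ vs 0 s, lev (ep 0 (s.take j)) ≤ lev v := by
    intro v hv
    obtain ⟨i, hi, rfl⟩ := List.getElem_of_mem hv
    rw [vs_getElem]
    rw [vs_length, hl] at hi
    exact hmin i (mem_range.2 hi)
  have hjmem : ep 0 (s.take j) ∈ vs 0 s := vertex_mem s j (by omega)
  refine ⟨j, ⟨hj, ?_⟩, ?_⟩
  · rw [bot_rotate s hS.1 j (by omega)]
    intro v hv
    refine ⟨hmin' v hv, fun h => ?_⟩
    have hc : cnt (vs 0 s) (lev (ep 0 (s.take j))) ≤ 1 := by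
      apply cnt_le_one hr
      intro hc
      have h0 : cnt (vs 0 s) (lev (ep 0 (s.take j)) - 1) = 0 := cnt_eq_zero fun w hw => by
        have := hmin' w hw; omega
      have := hc.2.1
      omega
    exact eq_of_cnt_le_one hc hv hjmem h rfl
  · rintro i ⟨hi, hb⟩
    rw [bot_rotate s hS.1 i (by omega)] at hb
    have himem : ep 0 (s.take i) ∈ vs 0 s := vertex_mem s i (by omega)
    have h1 := hb _ hjmem
    have h2 := hmin' _ himem
    have h3 := h1.2 (by omega)
    exact (vertex_inj s hS j i (by omega) (by omega) h3).symm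

/-- levels of an all-up word -/
lemma cnt_up (U : List (Fin 4)) (hU : ∀ d ∈ U, d = 0 ∨ d = 1) (p : ℤ × ℤ) (h : ℤ) :
    cnt (vs p U) h = (if lev p ≤ h ∧ h < lev p + U.length then 1 else 0) ∧
      lev (ep p U) = lev p + U.length := by
  induction U generalizing p with
  | nil =>
    refine ⟨?_, by simp⟩
    rw [if_neg (by simp), vs_nil]
    simp [cnt]
  | cons a U ih =>
    obtain ⟨h1, h2⟩ := ih (fun d hd => hU d (List.mem_cons_of_mem _ hd)) (p + dv a)
    have ha : lev (dv a) = 1 := by
      rcases hU a List.mem_cons_self with rfl | rfl <;> simp [lev, dv]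
    rw [lev_add, ha] at h1 h2
    refine ⟨?_, by rw [ep_cons, h2]; push_cast [List.length_cons]; ring⟩
    rw [vs_cons]
    have h3 : cnt (p :: vs (p + dv a) U) h = cnt (vs (p + dv a) U) h +
        if lev p = h then 1 else 0 := by
      unfold cnt
      rw [List.countP_cons]
      simp
    rw [h3, h1]
    push_cast [List.length_cons]
    split_ifs <;> omega

/-- levels of an all-down word -/
lemma cnt_down (U : List (Fin 4)) (hU : ∀ d ∈ U, d = 2 ∨ d = 3) (p : ℤ × ℤ) (h : ℤ) :
    cnt (vs p U) h = (if lev p - U.length < h ∧ h ≤ lev p then 1 else 0) ∧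
      lev (ep p U) = lev p - U.length := by
  induction U generalizing p with
  | nil =>
    refine ⟨?_, by simp⟩
    rw [if_neg (by simp), vs_nil]
    simp [cnt]
  | cons a U ih =>
    obtain ⟨h1, h2⟩ := ih (fun d hd => hU d (List.mem_cons_of_mem _ hd)) (p + dv a)
    have ha : lev (dv a) = -1 := by
      rcases hU a List.mem_cons_self with rfl | rfl <;> simp [lev, dv]
    rw [lev_add, ha] at h1 h2
    refine ⟨?_, by rw [ep_cons, h2]; push_cast [List.length_cons]; ring⟩
    rw [vs_cons]
    have h3 : cnt (p :: vs (p + dv a) U) h = cnt (vs (p + dv a) U) h +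
        if lev p = h then 1 else 0 := by
      unfold cnt
      rw [List.countP_cons]
      simp
    rw [h3, h1]
    push_cast [List.length_cons]
    split_ifs <;> omega

lemma cnt_append (l l' : List (ℤ × ℤ)) (h : ℤ) : cnt (l ++ l') h = cnt l h + cnt l' h := by
  unfold cnt
  rw [List.countP_append]

lemma lev_up_mem (U : List (Fin 4)) (hU : ∀ d ∈ U, d = 0 ∨ d = 1) (p v : ℤ × ℤ)
    (hv : v ∈ vs p U) : lev p ≤ lev v ∧ lev v < lev p + U.length := by
  have h1 := (cnt_up U hU p (lev v)).1
  by_contra hc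
  rw [if_neg hc] at h1
  unfold cnt at h1
  rw [List.countP_eq_zero] at h1
  exact h1 v hv (by simp)

lemma lev_down_mem (U : List (Fin 4)) (hU : ∀ d ∈ U, d = 2 ∨ d = 3) (p v : ℤ × ℤ)
    (hv : v ∈ vs p U) : lev p - U.length < lev v ∧ lev v ≤ lev p := by
  have h1 := (cnt_down U hU p (lev v)).1
  by_contra hc
  rw [if_neg hc] at h1
  unfold cnt at h1
  rw [List.countP_eq_zero] at h1
  exact h1 v hv (by simp)

lemma cntI_le_cnt {l : List (ℤ × ℤ)} {a b h : ℤ}
    (hl : ∀ v ∈ l, a ≤ lev v → lev v ≤ b → lev v = h) : cntI l a b ≤ cnt l h := by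
  unfold cntI cnt
  apply List.countP_mono_left
  intro v hv h1
  simp only [decide_eq_true_eq] at h1 ⊢
  exact hl v hv h1.1 h1.2

lemma mem_Stair (n : ℕ) (hn : 2 ≤ n) (s : List (Fin 4)) :
    s ∈ Stair n ↔ (s ∈ Fam 1 n ∧ Bot s) ∧ s.getD 0 1 = 0 := by
  classical
  unfold Stair
  rw [mem_filter]
  constructor
  · rintro ⟨hW, h0, m, hm, hup, hdown⟩
    rw [mem_W] at hW
    obtain ⟨hl, hS⟩ := hW
    have hU : ∀ d ∈ s.take m, d = 0 ∨ d = 1 := by
      intro d hd
      obtain ⟨i, hi, rfl⟩ := List.getElem_of_mem hd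
      rw [List.length_take] at hi
      rw [List.getElem_take]
      have := hup i (by omega)
      rwa [List.getD_eq_getElem _ _ (by omega)] at this
    have hD : ∀ d ∈ s.drop m, d = 2 ∨ d = 3 := by
      intro d hd
      obtain ⟨i, hi, rfl⟩ := List.getElem_of_mem hd
      rw [List.length_drop] at hi
      rw [List.getElem_drop]
      have := hdown (m + i) (by omega) (by omega)
      rwa [List.getD_eq_getElem _ _ (by omega)] at this
    have hs : s = s.take m ++ s.drop m := (List.take_append_drop m s).symm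
    have hlt : (s.take m).length = m := by rw [List.length_take]; omega
    have hld : (s.drop m).length = 2 * n - m := by rw [List.length_drop, hl]
    have hmn : m = n := by
      have h1 : ep 0 (s.take m ++ s.drop m) = 0 := by rw [← hs]; exact hS.1
      rw [ep_append] at h1
      have h2 := (cnt_down _ hD (ep 0 (s.take m)) 0).2
      rw [h1, (cnt_up _ hU 0 0).2, lev_zero, hlt, hld] at h2
      omega
    subst hmn
    have hld' : (s.drop m).length = m := by rw [hld]; omega
    have hlevU : lev (ep 0 (s.take m)) = m := by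
      rw [(cnt_up _ hU 0 0).2, lev_zero, hlt, zero_add]
    have hcnt : ∀ h : ℤ, cnt (vs 0 s) h = (if 0 ≤ h ∧ h < (m : ℤ) then 1 else 0) +
        (if 0 < h ∧ h ≤ (m : ℤ) then 1 else 0) := by
      intro h
      rw [hs, vs_append, cnt_append, (cnt_up _ hU 0 h).1, (cnt_down _ hD _ h).1, hlevU, hlt,
        hld', lev_zero]
      have e1 : (0 : ℤ) + m = m := by ring
      have e2 : (m : ℤ) - m = 0 := by ring
      rw [e1, e2]
    have hmem : ∀ v ∈ vs 0 s, 0 ≤ lev v ∧ lev v ≤ m := by
      intro v hv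
      rw [hs, vs_append, List.mem_append] at hv
      rcases hv with hv | hv
      · have := lev_up_mem _ hU 0 v hv
        rw [lev_zero, hlt] at this
        omega
      · have := lev_down_mem _ hD _ v hv
        rw [hlevU, hld'] at this
        omega
    have hcut : ∀ h : ℤ, 0 < h → h < m → Cut (vs 0 s) h := by
      intro h h1 h2
      unfold Cut
      rw [hcnt, hcnt, hcnt]
      refine ⟨?_, ?_, ?_⟩
      · rw [if_pos (by omega), if_pos (by omega)]
      · rw [if_pos (by omega)]; omega
      · rw [add_comm, if_pos (by omega)]; omega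
    refine ⟨⟨(mem_Fam 1 m s).2 ⟨⟨hl, hS⟩, ?_⟩, ?_⟩, h0⟩
    · intro a b hab
      by_cases ha : a ≤ 0
      · by_cases hb : b < 1
        · have h1 : cntI (vs 0 s) a b ≤ cnt (vs 0 s) 0 := cntI_le_cnt fun v hv h1 h2 => by
            have := hmem v hv; omega
          rw [hcnt, if_pos (by omega), if_neg (by omega)] at h1
          exact h1
        · exact absurd (hcut 1 (by omega) (by omega)) (hab 1 (by omega) (by omega))
      · by_cases hab2 : a ≤ b
        · have ha2 : (m : ℤ) ≤ a := by
            by_contra hc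
            exact hab a le_rfl hab2 (hcut a (by omega) (by omega))
          have h1 : cntI (vs 0 s) a b ≤ cnt (vs 0 s) m := cntI_le_cnt fun v hv h1 h2 => by
            have := hmem v hv; omega
          rw [hcnt, if_neg (by omega), if_pos (by omega)] at h1
          exact h1
        · have h1 : cntI (vs 0 s) a b ≤ cnt (vs 0 s) (-1) := cntI_le_cnt fun v hv h1 h2 => by
            omega
          rw [hcnt, if_neg (by omega), if_neg (by omega)] at h1
          omega
    · intro v hv
      refine ⟨(hmem v hv).1, fun h => ?_⟩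
      have hc : cnt (vs 0 s) 0 ≤ 1 := by
        rw [hcnt, if_pos (by omega), if_neg (by omega)]
      have h0' : (0 : ℤ × ℤ) ∈ vs 0 s := by
        have := vertex_mem s 0 (by omega)
        simpa using this
      exact eq_of_cnt_le_one hc hv h0' h lev_zero
  · rintro ⟨⟨hF, hb⟩, h0⟩
    obtain ⟨U, D, rfl, hU, hD, hU', hD'⟩ := bot_split n (by omega) s hF hb
    rw [mem_Fam] at hF
    refine ⟨(mem_W n _).2 hF.1, h0, n, by omega, ?_, ?_⟩
    · intro i hi
      rw [List.getD_eq_getElem _ _ (by rw [List.length_append]; omega),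
        List.getElem_append_left (by omega)]
      exact hU' _ (List.getElem_mem _)
    · intro i hi hi2
      rw [List.getD_eq_getElem _ _ (by rw [List.length_append]; omega),
        List.getElem_append_right (by omega)]
      exact hD' _ (List.getElem_mem _)

/-- first letters of a rooted word and of its reversal -/
lemma first_letter (n : ℕ) (hn : 2 ≤ n) (s : List (Fin 4)) (hF : s ∈ Fam 1 n) (hb : Bot s) :
    ((rv s).getD 0 1 = 0 ↔ s.getD 0 1 ≠ 0) := by
  obtain ⟨U, D, rfl, hU, hD, hU', hD'⟩ := bot_split n (by omega) s hF hb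
  rw [mem_Fam] at hF
  obtain ⟨⟨hl, hS⟩, -⟩ := hF
  obtain ⟨c, U', rfl⟩ : ∃ c U', U = c :: U' := by
    cases U with
    | nil => simp at hU; omega
    | cons c U' => exact ⟨c, U', rfl⟩
  obtain ⟨D', e, rfl⟩ : ∃ D' e, D = D' ++ [e] := by
    refine ⟨D.dropLast, D.getLast (fun h => by rw [h] at hD; simp at hD; omega), ?_⟩
    exact (List.dropLast_append_getLast _).symm
  have hc := hU' c List.mem_cons_self
  have he := hD' e (by simp)
  have hne : e + 2 ≠ c := by
    intro h
    have h1 : ep 0 ((c :: U' ++ (D' ++ [e])).take 1) = dv c := by simp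
    have h2 : ep 0 ((c :: U' ++ (D' ++ [e])).take (2 * n - 1)) = dv c := by
      have e1 : (c :: U' ++ (D' ++ [e])) = (c :: U' ++ D') ++ [e] := by simp
      have e2 : (c :: U' ++ D').length = 2 * n - 1 := by
        have : ((c :: U' ++ D') ++ [e]).length = 2 * n := by rw [← e1]; exact hl
        rw [List.length_append] at this
        simp only [List.length_singleton] at this
        omega
      rw [e1, ← e2, List.take_left]
      have h3 := hS.1
      rw [e1, ep_append, ep_cons, ep_nil] at h3
      rw [eq_neg_of_add_eq_zero_left h3, ← dv_add_two, h]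
    have := vertex_inj _ hS 1 (2 * n - 1) (by omega) (by omega) (h1.trans h2.symm)
    omega
  have e3 : (rv (c :: U' ++ (D' ++ [e]))).getD 0 1 = e + 2 := by
    unfold rv
    simp
  have e4 : (c :: U' ++ (D' ++ [e])).getD 0 1 = c := by simp
  rw [e3, e4]
  revert hne
  rcases hc with rfl | rfl <;> rcases he with rfl | rfl <;> decide

lemma bot_rv (n : ℕ) (s : List (Fin 4)) (hF : s ∈ Fam 1 n) (hb : Bot s) : Bot (rv s) := by
  rw [mem_Fam] at hF
  intro v hv
  rw [(vs_rv_perm s hF.1.2.1).mem_iff] at hv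
  exact hb v hv

theorem k6 : K6_Stmt := by
  classical
  intro n hn F
  rw [sum_rotations 1 n Bot (exists_unique_bot n (by omega)) (fun s => F |dbl 0 s|)
    (fun s hs j hj => by
      show F |dbl 0 (s.rotate j)| = F |dbl 0 s|
      rw [(rotate_mem_Fam 1 n s hs j hj).2])]
  have h1 : ∑ s ∈ (Fam 1 n).filter Bot, F |dbl 0 s| =
      ∑ s ∈ ((Fam 1 n).filter Bot).filter (fun s => s.getD 0 1 = 0), F |dbl 0 s| +
      ∑ s ∈ ((Fam 1 n).filter Bot).filter (fun s => ¬ s.getD 0 1 = 0), F |dbl 0 s| :=
    (sum_filter_add_sum_filter_not _ _ _).symm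
  have h2 : ((Fam 1 n).filter Bot).filter (fun s => s.getD 0 1 = 0) = Stair n := by
    ext s
    rw [mem_filter, mem_filter, mem_Stair n hn]
  have h3 : ∑ s ∈ ((Fam 1 n).filter Bot).filter (fun s => ¬ s.getD 0 1 = 0), F |dbl 0 s| =
      ∑ s ∈ Stair n, F |dbl 0 s| := by
    refine sum_bij' (fun s _ => rv s) (fun s _ => rv s) ?_ ?_ ?_ ?_ ?_
    · intro s hs
      rw [mem_filter, mem_filter] at hs
      obtain ⟨⟨hF, hb⟩, h0⟩ := hs
      rw [mem_Stair n hn]
      exact ⟨⟨(rv_mem_Fam 1 n s hF).1, bot_rv n s hF hb⟩, (first_letter n hn s hF hb).2 h0⟩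
    · intro s hs
      rw [mem_Stair n hn] at hs
      obtain ⟨⟨hF, hb⟩, h0⟩ := hs
      rw [mem_filter, mem_filter]
      refine ⟨⟨(rv_mem_Fam 1 n s hF).1, bot_rv n s hF hb⟩, fun h => ?_⟩
      exact (first_letter n hn s hF hb).1 h h0
    · intro s _; exact rv_rv s
    · intro s _; exact rv_rv s
    · intro s hs
      rw [mem_filter, mem_filter] at hs
      rw [(rv_mem_Fam 1 n s hs.1.1).2, abs_neg]
  rw [h1, h2, h3]
  push_cast
  ring

end Pool.Agent.SapR.H66
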