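import Pool.Agent.Lib_helper24.SapR.Stmts

/-! MP_f6626d_co, module K4: area identities (helper66). -/

set_option autoImplicit false

namespace Pool.Agent.SapR.H66

open Finset Pool.Agent.Lib27

/-- shoelace sum of a translated walk -/
lemma dbl_add (p q : ℤ × ℤ) (s : List (Fin 4)) :
    dbl (p + q) s = dbl p s + (q.1 * ((ep p s).2 - p.2) - q.2 * ((ep p s).1 - p.1)) := by
  induction s generalizing p with
  | nil => simp
  | cons d s ih =>
    have e : p + q + dv d = (p + dv d) + q := by abel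
    rw [dbl_cons, dbl_cons, e, ih, ep_cons]
    simp only [Prod.fst_add, Prod.snd_add]
    ring

lemma dbl_eq' (p : ℤ × ℤ) (s : List (Fin 4)) :
    dbl p s = dbl 0 s + (p.1 * (ep 0 s).2 - p.2 * (ep 0 s).1) := by
  have h := dbl_add 0 p s
  rw [zero_add] at h
  rw [h]
  simp

lemma rot2_nil : rot2 [] = [] := rfl

lemma rot2_cons (d : Fin 4) (s : List (Fin 4)) : rot2 (d :: s) = (d + 2) :: rot2 s := rfl

@[simp] lemma rot2_length (s : List (Fin 4)) : (rot2 s).length = s.length := by
  simp [rot2]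

lemma rot2_rot2 (s : List (Fin 4)) : rot2 (rot2 s) = s := by
  induction s with
  | nil => rfl
  | cons d s ih =>
    rw [rot2_cons, rot2_cons, ih, fin4_add_two_two]

lemma ep_rot2 (p : ℤ × ℤ) (s : List (Fin 4)) : ep p (rot2 s) = - ep (-p) s := by
  induction s generalizing p with
  | nil => simp [rot2]
  | cons d s ih =>
    rw [rot2_cons, ep_cons, ep_cons, ih, dv_add_two]
    congr 2
    abel

lemma ep0_rot2 (s : List (Fin 4)) : ep 0 (rot2 s) = - ep 0 s := by
  rw [ep_rot2, neg_zero]

lemma dbl_rot2 (p : ℤ × ℤ) (s : List (Fin 4)) : dbl p (rot2 s) = dbl (-p) s := by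
  induction s generalizing p with
  | nil => simp [rot2]
  | cons d s ih =>
    rw [rot2_cons, dbl_cons, dbl_cons, ih, dv_add_two]
    have e : -(p + -dv d) = -p + dv d := by abel
    rw [e]
    simp only [Prod.fst_neg, Prod.snd_neg]
    ring

lemma dbl0_rot2 (s : List (Fin 4)) : dbl 0 (rot2 s) = dbl 0 s := by
  rw [dbl_rot2, neg_zero]

lemma vt_rot2 (p : ℤ × ℤ) (s : List (Fin 4)) : vt p (rot2 s) = (vt (-p) s).map (- ·) := by
  induction s generalizing p with
  | nil => simp [rot2]
  | cons d s ih =>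
    rw [rot2_cons, vt_cons, vt_cons, ih, dv_add_two, List.map_cons, neg_neg]
    congr 3
    abel

lemma vs_rot2 (p : ℤ × ℤ) (s : List (Fin 4)) : vs p (rot2 s) = (vs (-p) s).map (- ·) := by
  induction s generalizing p with
  | nil => simp [rot2]
  | cons d s ih =>
    rw [rot2_cons, vs_cons, vs_cons, ih, dv_add_two, List.map_cons, neg_neg]
    congr 3
    abel

theorem k4 : K4_Stmt := by
  intro x p w hS hw
  obtain ⟨-, h2, -⟩ := hS
  rw [List.append_assoc, dbl_append, dbl_append, dbl_eq' (ep 0 p.1) w, dbl_eq' _ p.2,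
    ep_eq (ep 0 p.1) w, hw]
  unfold jump ht off
  unfold lev at h2 ⊢
  simp only [jump, Prod.fst_add, Prod.snd_add]
  linear_combination (-(ep 0 p.2).1 - x) * h2

theorem k4poly : K4poly_Stmt := by
  intro x w T hw hT
  rw [dbl_append, dbl_eq' _ (rot2 T), dbl0_rot2, ep0_rot2, hw, hT]
  simp

end Pool.Agent.SapR.H66
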