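import Pool.Agent.Lib_helper66.SapR.K5

/-! MP_f6626d_co: invariance of the family under rotation and reversal of words (helper66). -/

set_option autoImplicit false

namespace Pool.Agent.SapR.H66

open Finset Pool.Agent.Lib27

/-! ### permutations and translations of vertex lists -/

lemma cnt_perm {l l' : List (ℤ × ℤ)} (h : List.Perm l l') (a : ℤ) : cnt l a = cnt l' a := by
  unfold cnt
  exact h.countP_eq _

lemma cntI_perm {l l' : List (ℤ × ℤ)} (h : List.Perm l l') (a b : ℤ) :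
    cntI l a b = cntI l' a b := by
  unfold cntI
  exact h.countP_eq _

lemma cut_perm {l l' : List (ℤ × ℤ)} (h : List.Perm l l') (a : ℤ) : Cut l a ↔ Cut l' a := by
  unfold Cut
  rw [cnt_perm h, cnt_perm h, cnt_perm h]

lemma shortRuns_perm {l l' : List (ℤ × ℤ)} (h : List.Perm l l') (r : ℕ) (hl : ShortRuns r l) :
    ShortRuns r l' := by
  intro a b hab
  rw [← cntI_perm h]
  exact hl a b fun k h1 h2 hc => hab k h1 h2 ((cut_perm h k).1 hc)

lemma cnt_trans (l : List (ℤ × ℤ)) (c : ℤ × ℤ) (a : ℤ) :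
    cnt (l.map (· + c)) a = cnt l (a - lev c) := by
  unfold cnt
  rw [List.countP_map]
  apply List.countP_congr
  intro p _
  simp only [Function.comp, decide_eq_true_eq]
  rw [lev_add]
  constructor <;> intro h <;> omega

lemma cntI_trans (l : List (ℤ × ℤ)) (c : ℤ × ℤ) (a b : ℤ) :
    cntI (l.map (· + c)) a b = cntI l (a - lev c) (b - lev c) := by
  unfold cntI
  rw [List.countP_map]
  apply List.countP_congr
  intro p _
  simp only [Function.comp, decide_eq_true_eq]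
  rw [lev_add]
  constructor <;> intro h <;> omega

lemma cut_trans (l : List (ℤ × ℤ)) (c : ℤ × ℤ) (a : ℤ) :
    Cut (l.map (· + c)) a ↔ Cut l (a - lev c) := by
  unfold Cut
  rw [cnt_trans, cnt_trans, cnt_trans]
  have e1 : a - 1 - lev c = a - lev c - 1 := by ring
  have e2 : a + 1 - lev c = a - lev c + 1 := by ring
  rw [e1, e2]

lemma shortRuns_trans (l : List (ℤ × ℤ)) (c : ℤ × ℤ) (r : ℕ) (hl : ShortRuns r l) :
    ShortRuns r (l.map (· + c)) := by
  intro a b hab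
  rw [cntI_trans]
  refine hl _ _ fun k h1 h2 hc => hab (k + lev c) (by omega) (by omega) ?_
  rw [cut_trans, add_sub_cancel_right]
  exact hc

/-! ### rotation -/

lemma ep_of_closed {l₁ l₂ : List (Fin 4)} (h : ep 0 (l₁ ++ l₂) = 0) : ep 0 l₂ = - ep 0 l₁ := by
  rw [ep_append, ep_eq] at h
  exact eq_neg_of_add_eq_zero_left h

lemma vs_rot_perm {l₁ l₂ : List (Fin 4)} (h : ep 0 (l₁ ++ l₂) = 0) :
    List.Perm (vs 0 (l₂ ++ l₁)) ((vs 0 (l₁ ++ l₂)).map (· + -ep 0 l₁)) := by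
  rw [← vs_add, zero_add, vs_append, vs_append, ep_of_closed h]
  have e : ep (-ep 0 l₁) l₁ = 0 := by rw [ep_eq]; abel
  rw [e]
  exact List.perm_append_comm

lemma dbl_rot {l₁ l₂ : List (Fin 4)} (h : ep 0 (l₁ ++ l₂) = 0) :
    dbl 0 (l₂ ++ l₁) = dbl 0 (l₁ ++ l₂) := by
  rw [dbl_append, dbl_append, dbl_eq' (ep 0 l₂) l₁, dbl_eq' (ep 0 l₁) l₂, ep_of_closed h]
  simp only [Prod.fst_neg, Prod.snd_neg]
  ring

lemma shortRuns_rot {l₁ l₂ : List (Fin 4)} (h : ep 0 (l₁ ++ l₂) = 0) (r : ℕ)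
    (hr : ShortRuns r (vs 0 (l₁ ++ l₂))) : ShortRuns r (vs 0 (l₂ ++ l₁)) :=
  shortRuns_perm (vs_rot_perm h).symm r (shortRuns_trans _ _ r hr)

lemma mem_Fam (r n : ℕ) (s : List (Fin 4)) :
    s ∈ Fam r n ↔ (s.length = 2 * n ∧ SAPw s) ∧ ShortRuns r (vs 0 s) := by
  classical
  unfold Fam
  rw [mem_filter, mem_W]

lemma rotate_split (s : List (Fin 4)) (j : ℕ) (hj : j ≤ s.length) :
    s = s.take j ++ s.drop j ∧ s.rotate j = s.drop j ++ s.take j :=
  ⟨(List.take_append_drop j s).symm, List.rotate_eq_drop_append_take hj⟩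

lemma rotate_mem_Fam (r n : ℕ) (s : List (Fin 4)) (hs : s ∈ Fam r n) (j : ℕ) (hj : j ≤ 2 * n) :
    s.rotate j ∈ Fam r n ∧ dbl 0 (s.rotate j) = dbl 0 s := by
  rw [mem_Fam] at hs ⊢
  obtain ⟨⟨hl, hS⟩, hr⟩ := hs
  obtain ⟨e1, e2⟩ := rotate_split s j (by omega)
  have hS' : SAPw (s.take j ++ s.drop j) := by rw [← e1]; exact hS
  have hr' : ShortRuns r (vs 0 (s.take j ++ s.drop j)) := by rw [← e1]; exact hr
  refine ⟨⟨⟨by rw [List.length_rotate, hl], ?_⟩, ?_⟩, ?_⟩
  · rw [e2]; exact SAPw_rotate _ _ hS'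
  · rw [e2]; exact shortRuns_rot hS'.1 r hr'
  · rw [e2, dbl_rot hS'.1, ← e1]

/-- summation over the rotations of a word: if every word of the family has exactly one rotation
in `B`, the sum over the family is `2n` times the sum over `B`. -/
lemma sum_rotations (r n : ℕ) (B : List (Fin 4) → Prop) [DecidablePred B]
    (hB : ∀ s ∈ Fam r n, ∃! j, j < 2 * n ∧ B (s.rotate j)) (G : List (Fin 4) → ℝ)
    (hG : ∀ s ∈ Fam r n, ∀ j ≤ 2 * n, G (s.rotate j) = G s) :
    ∑ s ∈ Fam r n, G s = (2 * n : ℕ) * ∑ s ∈ (Fam r n).filter B, G s := by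
  have h1 : ∀ s ∈ Fam r n, G s = ∑ j ∈ range (2 * n), if B (s.rotate j) then G (s.rotate j)
      else 0 := by
    intro s hs
    obtain ⟨j, ⟨hj1, hj2⟩, huniq⟩ := hB s hs
    rw [sum_eq_single j]
    · rw [if_pos hj2, hG s hs j hj1.le]
    · intro i hi hne
      rw [if_neg]
      intro h
      exact hne (huniq i ⟨mem_range.1 hi, h⟩)
    · intro h
      exact absurd (mem_range.2 hj1) h
  rw [sum_congr rfl h1, sum_comm]
  have h2 : ∀ j ∈ range (2 * n), (∑ s ∈ Fam r n, if B (s.rotate j) then G (s.rotate j) else 0) =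
      ∑ s ∈ (Fam r n).filter B, G s := by
    intro j hj
    rw [mem_range] at hj
    rw [sum_filter]
    refine sum_bij' (fun s _ => s.rotate j) (fun s _ => s.rotate (2 * n - j)) ?_ ?_ ?_ ?_ ?_
    · intro s hs; exact (rotate_mem_Fam r n s hs j hj.le).1
    · intro s hs; exact (rotate_mem_Fam r n s hs _ (by omega)).1
    · intro s hs
      rw [List.rotate_rotate, Nat.add_sub_cancel' hj.le, ← ((mem_Fam r n s).1 hs).1.1,
        List.rotate_length]
    · intro s hs
      rw [List.rotate_rotate, Nat.sub_add_cancel hj.le, ← ((mem_Fam r n s).1 hs).1.1,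
        List.rotate_length]
    · intro s hs; rfl
  rw [sum_congr rfl h2, sum_const, card_range, nsmul_eq_mul]

/-! ### reversal -/

lemma vs_rv_perm (s : List (Fin 4)) (h : ep 0 s = 0) : List.Perm (vs 0 (rv s)) (vs 0 s) := by
  have h3 := vs_rv 0 s
  rw [h] at h3
  have h4 : List.Perm (vs 0 (rv s) ++ [0]) (vs 0 s ++ [0]) := by
    rw [h3]; exact List.reverse_perm _
  exact (List.perm_append_right_iff [(0 : ℤ × ℤ)]).1 h4

lemma dbl_rv (p : ℤ × ℤ) (s : List (Fin 4)) : dbl (ep p s) (rv s) = - dbl p s := by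
  induction s generalizing p with
  | nil => simp [rv]
  | cons a s ih =>
    rw [rv_cons, dbl_append, ep_cons, ep_rv, ih, dbl_cons, dbl_cons, dbl_nil, dv_add_two]
    simp only [Prod.fst_add, Prod.snd_add, Prod.fst_neg, Prod.snd_neg]
    ring

lemma dbl0_rv (s : List (Fin 4)) (h : ep 0 s = 0) : dbl 0 (rv s) = - dbl 0 s := by
  have := dbl_rv 0 s
  rwa [h] at this

@[simp] lemma rv_length (s : List (Fin 4)) : (rv s).length = s.length := by
  simp [rv]

lemma rv_mem_Fam (r n : ℕ) (s : List (Fin 4)) (hs : s ∈ Fam r n) :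
    rv s ∈ Fam r n ∧ dbl 0 (rv s) = - dbl 0 s := by
  rw [mem_Fam] at hs ⊢
  obtain ⟨⟨hl, hS⟩, hr⟩ := hs
  exact ⟨⟨⟨by rw [rv_length, hl], SAPw_rv s hS⟩, shortRuns_perm (vs_rv_perm s hS.1).symm r hr⟩,
    dbl0_rv s hS.1⟩

end Pool.Agent.SapR.H66
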